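import Pool.Agent.Helper89.Stz.Defs

/-!
# All levels

The main estimate of the finite model from the level set estimates.
-/

set_option autoImplicit false

namespace Stz

open Finset

namespace Levels

/-- Summation over dyadic levels. -/
lemma dyadic {Ω : Type*} [Fintype Ω] (f : Ω → ℝ) (hf : ∀ w, 0 ≤ f w) (p q α B₀ K : ℝ)
    (hq : 0 ≤ q) (hpq : q < p) (hK : 0 ≤ K)
    (h : ∀ lam, α ≤ lam → lam ≤ B₀ →
      ((univ.filter fun w => lam ≤ f w).card : ℝ) ≤ K * lam ^ (-q)) :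
    ∀ (n : ℕ) (B : ℝ), 0 < B → B < 2 ^ n * α → B ≤ B₀ →
      ∑ w ∈ univ.filter (fun w => α ≤ f w ∧ f w ≤ B), f w ^ p ≤
        2 ^ q / (1 - 2 ^ (-(p - q))) * K * B ^ (p - q) := by
  have hr0 : (0 : ℝ) < 2 ^ (-(p - q)) := Real.rpow_pos_of_pos (by norm_num) _
  have hr1 : (2 : ℝ) ^ (-(p - q)) < 1 :=
    Real.rpow_lt_one_of_one_lt_of_neg (by norm_num) (by linarith)
  have h1r : (0 : ℝ) < 1 - 2 ^ (-(p - q)) := by linarith
  have hC0 : (0 : ℝ) < 2 ^ q / (1 - 2 ^ (-(p - q))) :=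
    div_pos (Real.rpow_pos_of_pos (by norm_num) _) h1r
  intro n
  induction n with
  | zero =>
    intro B hB hBα _
    have : univ.filter (fun w => α ≤ f w ∧ f w ≤ B) = ∅ := by
      rw [filter_eq_empty_iff]
      rintro w _ ⟨h1, h2⟩
      rw [pow_zero, one_mul] at hBα
      linarith
    rw [this, sum_empty]
    have := Real.rpow_nonneg hB.le (p - q)
    positivity
  | succ n ih =>
    intro B hB hBα hBB
    have hBpow := Real.rpow_nonneg hB.le (p - q)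
    rcases lt_or_ge B α with hlt | hge
    · have : univ.filter (fun w => α ≤ f w ∧ f w ≤ B) = ∅ := by
        rw [filter_eq_empty_iff]
        rintro w _ ⟨h1, h2⟩
        linarith
      rw [this, sum_empty]
      positivity
    · have hB2 : 0 < B / 2 := by linarith
      have ih' := ih (B / 2) hB2 (by rw [pow_succ] at hBα; linarith) (by linarith)
      set T := univ.filter (fun w => α ≤ f w ∧ B / 2 < f w ∧ f w ≤ B) with hT
      have hsplit : ∑ w ∈ univ.filter (fun w => α ≤ f w ∧ f w ≤ B), f w ^ p ≤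
          ∑ w ∈ univ.filter (fun w => α ≤ f w ∧ f w ≤ B / 2), f w ^ p + ∑ w ∈ T, f w ^ p := by
        classical
        have hsub : univ.filter (fun w => α ≤ f w ∧ f w ≤ B) ⊆
            univ.filter (fun w => α ≤ f w ∧ f w ≤ B / 2) ∪ T := by
          intro w hw
          obtain ⟨-, h1, h2⟩ := mem_filter.mp hw
          rcases le_or_gt (f w) (B / 2) with h3 | h3
          · exact mem_union_left _ (mem_filter.mpr ⟨mem_univ _, h1, h3⟩)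
          · exact mem_union_right _ (mem_filter.mpr ⟨mem_univ _, h1, h3, h2⟩)
        refine (sum_le_sum_of_subset_of_nonneg hsub
          fun w _ _ => Real.rpow_nonneg (hf w) p).trans ?_
        have h4 := sum_union_inter (s₁ := univ.filter (fun w => α ≤ f w ∧ f w ≤ B / 2))
          (s₂ := T) (f := fun w => f w ^ p)
        have h5 : 0 ≤ ∑ w ∈ univ.filter (fun w => α ≤ f w ∧ f w ≤ B / 2) ∩ T, f w ^ p :=
          sum_nonneg fun w _ => Real.rpow_nonneg (hf w) p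
        linarith
      have hcard : (T.card : ℝ) ≤ K * (B / 2) ^ (-q) := by
        have h1 := h (max α (B / 2)) (le_max_left _ _) (max_le (by linarith) (by linarith))
        have h2 : T.card ≤ (univ.filter fun w => max α (B / 2) ≤ f w).card := by
          apply card_le_card
          intro w hw
          obtain ⟨-, h3, h4, -⟩ := mem_filter.mp hw
          exact mem_filter.mpr ⟨mem_univ _, max_le h3 h4.le⟩
        have h3 : (max α (B / 2)) ^ (-q) ≤ (B / 2) ^ (-q) :=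
          Real.rpow_le_rpow_of_nonpos hB2 (le_max_right _ _) (by linarith)
        calc (T.card : ℝ) ≤ ((univ.filter fun w => max α (B / 2) ≤ f w).card : ℝ) := by
              exact_mod_cast h2
          _ ≤ K * (max α (B / 2)) ^ (-q) := h1
          _ ≤ K * (B / 2) ^ (-q) := mul_le_mul_of_nonneg_left h3 hK
      have hTsum : ∑ w ∈ T, f w ^ p ≤ B ^ p * (K * (B / 2) ^ (-q)) := by
        calc ∑ w ∈ T, f w ^ p ≤ ∑ w ∈ T, B ^ p := by
              refine sum_le_sum fun w hw => ?_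
              obtain ⟨-, -, -, h4⟩ := mem_filter.mp hw
              exact Real.rpow_le_rpow (hf w) h4 (by linarith)
          _ = B ^ p * T.card := by rw [sum_const, nsmul_eq_mul, mul_comm]
          _ ≤ _ := mul_le_mul_of_nonneg_left hcard (Real.rpow_nonneg hB.le _)
      have e1 : (B / 2) ^ (p - q) = B ^ (p - q) * 2 ^ (-(p - q)) := by
        rw [Real.div_rpow hB.le (by norm_num), Real.rpow_neg (by norm_num), div_eq_mul_inv]
      have e2 : B ^ p * (K * (B / 2) ^ (-q)) = K * B ^ (p - q) * 2 ^ q := by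
        rw [Real.div_rpow hB.le (by norm_num), Real.rpow_neg (by norm_num : (0 : ℝ) ≤ 2),
          Real.rpow_neg hB.le, Real.rpow_sub hB, div_inv_eq_mul]
        field_simp
      rw [e2] at hTsum
      rw [e1] at ih'
      refine hsplit.trans ((add_le_add ih' hTsum).trans (le_of_eq ?_))
      field_simp
      ring

/-- The same without upper bound on the number of steps. -/
lemma dyadic' {Ω : Type*} [Fintype Ω] (f : Ω → ℝ) (hf : ∀ w, 0 ≤ f w) (p q α B₀ K : ℝ)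
    (hα : 0 < α) (hq : 0 ≤ q) (hpq : q < p) (hK : 0 ≤ K) (hB₀ : 0 < B₀)
    (h : ∀ lam, α ≤ lam → lam ≤ B₀ →
      ((univ.filter fun w => lam ≤ f w).card : ℝ) ≤ K * lam ^ (-q)) :
      ∑ w ∈ univ.filter (fun w => α ≤ f w ∧ f w ≤ B₀), f w ^ p ≤
        2 ^ q / (1 - 2 ^ (-(p - q))) * K * B₀ ^ (p - q) := by
  obtain ⟨n, hn⟩ := pow_unbounded_of_one_lt (B₀ / α) (one_lt_two)
  rw [div_lt_iff₀ hα] at hn
  exact dyadic f hf p q α B₀ K hq hpq hK h n B₀ hB₀ hn (le_refl _)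

lemma F_norm_le (A : ℕ) [NeZero A] (N b : ℕ) (a : ℕ → ℕ → ℂ)
    (ha : nsq (Icc (b + 1) (b + N)) N a ≤ 1) (z y : ZMod A) :
    ‖F A (Icc (b + 1) (b + N)) N a z y‖ ≤ N := by
  have h1 : ‖F A (Icc (b + 1) (b + N)) N a z y‖ ≤
      ∑ q ∈ Icc (b + 1) (b + N) ×ˢ range N, ‖a q.1 q.2‖ := by
    unfold F
    rw [← sum_product']
    refine (norm_sum_le _ _).trans (sum_le_sum fun q _ => ?_)
    rw [norm_mul]
    have : ‖ps A (((q.1 ^ 2 + q.2 ^ 2 : ℕ) : ZMod A) * z + (q.2 : ZMod A) * y)‖ = 1 := by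
      unfold ps
      exact AddChar.norm_apply _ _
    rw [this, mul_one]
  have h2 : (∑ q ∈ Icc (b + 1) (b + N) ×ˢ range N, ‖a q.1 q.2‖) ^ 2 ≤
      (N : ℝ) ^ 2 := by
    have h3 := sq_sum_le_card_mul_sum_sq (s := Icc (b + 1) (b + N) ×ˢ range N)
      (f := fun q : ℕ × ℕ => ‖a q.1 q.2‖)
    have h4 : ∑ q ∈ Icc (b + 1) (b + N) ×ˢ range N, ‖a q.1 q.2‖ ^ 2 =
        nsq (Icc (b + 1) (b + N)) N a := by
      unfold nsq
      rw [← sum_product']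
    have h5 : (Icc (b + 1) (b + N) ×ˢ range N).card = N * N := by
      rw [card_product, Nat.card_Icc, card_range]
      congr 1
      omega
    rw [h4, h5] at h3
    refine h3.trans ?_
    push_cast
    nlinarith [mul_nonneg (Nat.cast_nonneg (α := ℝ) N) (Nat.cast_nonneg (α := ℝ) N)]
  exact h1.trans (le_of_sq_le_sq h2 (Nat.cast_nonneg _))

lemma Good_mono {M M' A : ℕ} (h : M ≤ M') (hG : Good M' A) : Good M A :=
  fun k h1 h2 => hG k h1 (h2.trans h)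

lemma Good_lt (A : ℕ) [NeZero A] (N b : ℕ) (hN : 1 ≤ N) (hG : Good ((N + b + 1) ^ 60) A) :
    16 * (b + N) ^ 2 < A := by
  have h1 : (N + b + 1) ^ 60 ∣ A := hG _ (Nat.one_le_pow _ _ (by omega)) (le_refl _)
  have h2 : (N + b + 1) ^ 60 ≤ A := Nat.le_of_dvd (Nat.pos_of_ne_zero (NeZero.ne A)) h1
  refine lt_of_lt_of_le ?_ h2
  have h3 : 2 ^ 58 ≤ (N + b + 1) ^ 58 := Nat.pow_le_pow_left (by omega) 58
  have h4 : (b + N) ^ 2 < (N + b + 1) ^ 2 := Nat.pow_lt_pow_left (by omega) (by norm_num)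
  calc 16 * (b + N) ^ 2 ≤ 2 ^ 58 * (b + N) ^ 2 := Nat.mul_le_mul_right _ (by norm_num)
    _ < 2 ^ 58 * (N + b + 1) ^ 2 := Nat.mul_lt_mul_of_pos_left h4 (by norm_num)
    _ ≤ (N + b + 1) ^ 58 * (N + b + 1) ^ 2 := Nat.mul_le_mul_right _ h3
    _ = (N + b + 1) ^ 60 := by rw [← pow_add]

/-- The case of small `b`, normalised. -/
lemma small_b (δ δ1 δ2 θ Cc Cm Ct : ℝ) (hδ : 0 < δ) (hδ1 : 0 < δ1) (hδδ1 : δ ≤ δ1)
    (hδ18 : δ1 ≤ 1 / 8) (hδ1θ : δ1 ≤ θ / 4) (hδδ2 : δ < δ2) (hδ21 : δ2 ≤ 1)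
    (hCc : 0 < Cc) (hCm : 0 < Cm) (hCt : 0 < Ct) (N b A : ℕ) [NeZero A] (hN : 1 ≤ N)
    (a : ℕ → ℕ → ℂ) (ha : nsq (Icc (b + 1) (b + N)) N a ≤ 1)
    (hl2 : (A : ℝ)⁻¹ ^ 2 * ∑ z : ZMod A, ∑ y : ZMod A,
      ‖F A (Icc (b + 1) (b + N)) N a z y‖ ^ 2 = nsq (Icc (b + 1) (b + N)) N a)
    (hcrit : ∀ lam : ℝ, (N : ℝ) ^ (1 / 2 - δ1) ≤ lam → lam ≤ (N : ℝ) ^ (1 / 2 + δ1) →
      ((lev A (Icc (b + 1) (b + N)) N a lam).card : ℝ) ≤ Cc * (N : ℝ) ^ (-1 - 10 * δ1) * A ^ 2)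
    (hmid : ∀ lam : ℝ, (N : ℝ) ^ (1 / 2 + δ1) ≤ lam →
      ((lev A (Icc (b + 1) (b + N)) N a lam).card : ℝ) ≤
        Cm * (N : ℝ) ^ δ1 * lam ^ (-3 : ℝ) * A ^ 2)
    (htop : ∀ lam : ℝ, (N : ℝ) ^ (1 - θ) ≤ lam → lam ≤ N →
      ((lev A (Icc (b + 1) (b + N)) N a lam).card : ℝ) ≤
        Ct * (N : ℝ) ^ (-3 : ℝ) * (N / lam) ^ (4 - δ2) * A ^ 2) :
    (A : ℝ)⁻¹ ^ 2 * ∑ z : ZMod A, ∑ y : ZMod A,
      ‖F A (Icc (b + 1) (b + N)) N a z y‖ ^ (4 - δ) ≤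
      (1 + 2 ^ (1 : ℝ) / (1 - 2 ^ (-((4 - δ) - 1))) * Cc +
        2 ^ (3 : ℝ) / (1 - 2 ^ (-((4 - δ) - 3))) * Cm +
        2 ^ (4 - δ2) / (1 - 2 ^ (-((4 - δ) - (4 - δ2)))) * Ct) * (N : ℝ) ^ (1 - δ) := by
  have hx1 : (1 : ℝ) ≤ N := by exact_mod_cast hN
  have hx0 : (0 : ℝ) < N := by linarith
  have hA0 : (0 : ℝ) < A := by exact_mod_cast Nat.pos_of_ne_zero (NeZero.ne A)
  set f : ZMod A × ZMod A → ℝ := fun w => ‖F A (Icc (b + 1) (b + N)) N a w.1 w.2‖ with hf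
  have hf0 : ∀ w, 0 ≤ f w := fun w => norm_nonneg _
  have hfN : ∀ w, f w ≤ N := fun w => F_norm_le A N b a ha w.1 w.2
  have hlev : ∀ lam, lev A (Icc (b + 1) (b + N)) N a lam = univ.filter fun w => lam ≤ f w :=
    fun lam => rfl
  have hsum : ∑ z : ZMod A, ∑ y : ZMod A, ‖F A (Icc (b + 1) (b + N)) N a z y‖ ^ (4 - δ) =
      ∑ w, f w ^ (4 - δ) := by
    rw [Fintype.sum_prod_type]
  have hl2' : ∑ w, f w ^ 2 ≤ (A : ℝ) ^ 2 := by
    have h1 : ∑ w, f w ^ 2 = ∑ z : ZMod A, ∑ y : ZMod A,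
        ‖F A (Icc (b + 1) (b + N)) N a z y‖ ^ 2 := by
      rw [Fintype.sum_prod_type]
    rw [h1]
    have h2 := hl2.le.trans ha
    rw [inv_pow, inv_mul_le_iff₀ (by positivity)] at h2
    linarith
  have hpow : ∀ r s : ℝ, r ≤ s → (N : ℝ) ^ r ≤ (N : ℝ) ^ s := fun r s h =>
    Real.rpow_le_rpow_of_exponent_le hx1 h
  have hlow : ∑ w ∈ univ.filter (fun w => f w < (N : ℝ) ^ (1 / 2 - δ1)), f w ^ (4 - δ) ≤
      (N : ℝ) ^ (1 - δ) * A ^ 2 := by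
    calc ∑ w ∈ univ.filter (fun w => f w < (N : ℝ) ^ (1 / 2 - δ1)), f w ^ (4 - δ) ≤
        ∑ w ∈ univ.filter (fun w => f w < (N : ℝ) ^ (1 / 2 - δ1)),
          (N : ℝ) ^ (1 - δ) * f w ^ 2 := by
          refine sum_le_sum fun w hw => ?_
          have h1 := (mem_filter.mp hw).2
          have h2 : f w ^ (4 - δ) = f w ^ (2 - δ) * f w ^ 2 := by
            have : (4 - δ) = (2 - δ) + 2 := by ring
            rw [this, Real.rpow_add_of_nonneg (hf0 w) (by linarith) (by norm_num),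
              Real.rpow_two]
          rw [h2]
          apply mul_le_mul_of_nonneg_right _ (sq_nonneg _)
          calc f w ^ (2 - δ) ≤ ((N : ℝ) ^ (1 / 2 - δ1)) ^ (2 - δ) :=
                Real.rpow_le_rpow (hf0 w) h1.le (by linarith)
            _ = (N : ℝ) ^ ((1 / 2 - δ1) * (2 - δ)) := by rw [← Real.rpow_mul hx0.le]
            _ ≤ (N : ℝ) ^ (1 - δ) := hpow _ _ (by nlinarith)
      _ = (N : ℝ) ^ (1 - δ) * ∑ w ∈ univ.filter (fun w => f w < (N : ℝ) ^ (1 / 2 - δ1)),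
          f w ^ 2 := by rw [mul_sum]
      _ ≤ (N : ℝ) ^ (1 - δ) * ∑ w, f w ^ 2 := by
          apply mul_le_mul_of_nonneg_left _ (by positivity)
          exact sum_le_sum_of_subset_of_nonneg (subset_univ _) fun w _ _ => sq_nonneg _
      _ ≤ _ := mul_le_mul_of_nonneg_left hl2' (by positivity)
  have hone : ∀ q : ℝ, q < 4 - δ → 0 < 2 ^ q / (1 - (2 : ℝ) ^ (-((4 - δ) - q))) := by
    intro q hq
    have : (2 : ℝ) ^ (-((4 - δ) - q)) < 1 :=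
      Real.rpow_lt_one_of_one_lt_of_neg (by norm_num) (by linarith)
    exact div_pos (Real.rpow_pos_of_pos (by norm_num) _) (by linarith)
  have hC : ∑ w ∈ univ.filter (fun w => (N : ℝ) ^ (1 / 2 - δ1) ≤ f w ∧
      f w ≤ (N : ℝ) ^ (1 / 2 + δ1)), f w ^ (4 - δ) ≤
      2 ^ (1 : ℝ) / (1 - 2 ^ (-((4 - δ) - 1))) * Cc * ((N : ℝ) ^ (1 - δ) * A ^ 2) := by
    have h1 := dyadic' f hf0 (4 - δ) 1 ((N : ℝ) ^ (1 / 2 - δ1)) ((N : ℝ) ^ (1 / 2 + δ1))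
      (Cc * (N : ℝ) ^ (-1 - 10 * δ1) * A ^ 2 * (N : ℝ) ^ (1 / 2 + δ1)) (by positivity)
      (by norm_num) (by linarith) (by positivity) (by positivity) (by
        intro lam h2 h3
        have h4 := hcrit lam h2 h3
        rw [hlev] at h4
        have hlam : 0 < lam := lt_of_lt_of_le (by positivity) h2
        refine h4.trans ?_
        rw [Real.rpow_neg_one, mul_assoc _ ((N : ℝ) ^ (1 / 2 + δ1))]
        apply le_mul_of_one_le_right (by positivity)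
        rw [← div_eq_mul_inv, one_le_div hlam]
        exact h3)
    refine h1.trans ?_
    have h5 : 2 ^ (1 : ℝ) / (1 - 2 ^ (-((4 - δ) - 1))) *
        (Cc * (N : ℝ) ^ (-1 - 10 * δ1) * A ^ 2 * (N : ℝ) ^ (1 / 2 + δ1)) *
        ((N : ℝ) ^ (1 / 2 + δ1)) ^ (4 - δ - 1) =
        2 ^ (1 : ℝ) / (1 - 2 ^ (-((4 - δ) - 1))) * Cc * (((N : ℝ) ^ (-1 - 10 * δ1) *
          (N : ℝ) ^ (1 / 2 + δ1) * ((N : ℝ) ^ (1 / 2 + δ1)) ^ (4 - δ - 1)) * A ^ 2) := by ring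
    rw [h5]
    apply mul_le_mul_of_nonneg_left _ (mul_nonneg (hone 1 (by linarith)).le hCc.le)
    apply mul_le_mul_of_nonneg_right _ (by positivity)
    rw [← Real.rpow_mul hx0.le, ← Real.rpow_add hx0, ← Real.rpow_add hx0]
    exact hpow _ _ (by nlinarith)
  have hM : ∑ w ∈ univ.filter (fun w => (N : ℝ) ^ (1 / 2 + δ1) ≤ f w ∧
      f w ≤ (N : ℝ) ^ (1 - θ)), f w ^ (4 - δ) ≤
      2 ^ (3 : ℝ) / (1 - 2 ^ (-((4 - δ) - 3))) * Cm * ((N : ℝ) ^ (1 - δ) * A ^ 2) := by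
    have h1 := dyadic' f hf0 (4 - δ) 3 ((N : ℝ) ^ (1 / 2 + δ1)) ((N : ℝ) ^ (1 - θ))
      (Cm * (N : ℝ) ^ δ1 * A ^ 2) (by positivity) (by norm_num) (by linarith) (by positivity)
      (by positivity) (by
        intro lam h2 h3
        have h4 := hmid lam h2
        rw [hlev] at h4
        refine h4.trans (le_of_eq ?_)
        ring)
    refine h1.trans ?_
    have h5 : 2 ^ (3 : ℝ) / (1 - 2 ^ (-((4 - δ) - 3))) * (Cm * (N : ℝ) ^ δ1 * A ^ 2) *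
        ((N : ℝ) ^ (1 - θ)) ^ (4 - δ - 3) =
        2 ^ (3 : ℝ) / (1 - 2 ^ (-((4 - δ) - 3))) * Cm * (((N : ℝ) ^ δ1 *
          ((N : ℝ) ^ (1 - θ)) ^ (4 - δ - 3)) * A ^ 2) := by ring
    rw [h5]
    apply mul_le_mul_of_nonneg_left _ (mul_nonneg (hone 3 (by linarith)).le hCm.le)
    apply mul_le_mul_of_nonneg_right _ (by positivity)
    rw [← Real.rpow_mul hx0.le, ← Real.rpow_add hx0]
    exact hpow _ _ (by nlinarith)
  have hT : ∑ w ∈ univ.filter (fun w => (N : ℝ) ^ (1 - θ) ≤ f w ∧ f w ≤ N), f w ^ (4 - δ) ≤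
      2 ^ (4 - δ2) / (1 - 2 ^ (-((4 - δ) - (4 - δ2)))) * Ct * ((N : ℝ) ^ (1 - δ) * A ^ 2) := by
    have h1 := dyadic' f hf0 (4 - δ) (4 - δ2) ((N : ℝ) ^ (1 - θ)) N
      (Ct * (N : ℝ) ^ (-3 : ℝ) * (N : ℝ) ^ (4 - δ2) * A ^ 2) (by positivity) (by linarith)
      (by linarith) (by positivity) hx0 (by
        intro lam h2 h3
        have h4 := htop lam h2 h3
        rw [hlev] at h4
        have hlam : 0 < lam := lt_of_lt_of_le (by positivity) h2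
        refine h4.trans (le_of_eq ?_)
        rw [Real.div_rpow hx0.le hlam.le, Real.rpow_neg hlam.le]
        ring)
    refine h1.trans ?_
    have h5 : 2 ^ (4 - δ2) / (1 - 2 ^ (-((4 - δ) - (4 - δ2)))) *
        (Ct * (N : ℝ) ^ (-3 : ℝ) * (N : ℝ) ^ (4 - δ2) * A ^ 2) *
        (N : ℝ) ^ (4 - δ - (4 - δ2)) =
        2 ^ (4 - δ2) / (1 - 2 ^ (-((4 - δ) - (4 - δ2)))) * Ct * (((N : ℝ) ^ (-3 : ℝ) *
          (N : ℝ) ^ (4 - δ2) * (N : ℝ) ^ (4 - δ - (4 - δ2))) * A ^ 2) := by ring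
    rw [h5]
    apply mul_le_mul_of_nonneg_left _ (mul_nonneg (hone (4 - δ2) (by linarith)).le hCt.le)
    apply mul_le_mul_of_nonneg_right _ (by positivity)
    rw [← Real.rpow_add hx0, ← Real.rpow_add hx0]
    exact hpow _ _ (by linarith)
  have hcover : ∑ w, f w ^ (4 - δ) ≤
      ∑ w ∈ univ.filter (fun w => f w < (N : ℝ) ^ (1 / 2 - δ1)), f w ^ (4 - δ) +
      ∑ w ∈ univ.filter (fun w => (N : ℝ) ^ (1 / 2 - δ1) ≤ f w ∧
        f w ≤ (N : ℝ) ^ (1 / 2 + δ1)), f w ^ (4 - δ) +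
      ∑ w ∈ univ.filter (fun w => (N : ℝ) ^ (1 / 2 + δ1) ≤ f w ∧
        f w ≤ (N : ℝ) ^ (1 - θ)), f w ^ (4 - δ) +
      ∑ w ∈ univ.filter (fun w => (N : ℝ) ^ (1 - θ) ≤ f w ∧ f w ≤ N), f w ^ (4 - δ) := by
    rw [sum_filter, sum_filter, sum_filter, sum_filter, ← sum_add_distrib, ← sum_add_distrib,
      ← sum_add_distrib]
    refine sum_le_sum fun w _ => ?_
    have hg : 0 ≤ f w ^ (4 - δ) := Real.rpow_nonneg (hf0 w) _
    have hw := hfN w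
    by_cases c1 : f w < (N : ℝ) ^ (1 / 2 - δ1)
    · rw [if_pos c1]
      split_ifs <;> linarith
    · by_cases c2 : f w ≤ (N : ℝ) ^ (1 / 2 + δ1)
      · rw [if_pos (⟨not_lt.mp c1, c2⟩ : _ ∧ _)]
        split_ifs <;> linarith
      · by_cases c3 : f w ≤ (N : ℝ) ^ (1 - θ)
        · rw [if_pos (⟨(not_le.mp c2).le, c3⟩ : (N : ℝ) ^ (1 / 2 + δ1) ≤ f w ∧ _)]
          split_ifs <;> linarith
        · rw [if_pos (⟨(not_le.mp c3).le, hw⟩ : (N : ℝ) ^ (1 - θ) ≤ f w ∧ f w ≤ N)]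
          split_ifs <;> linarith
  rw [hsum, inv_pow, inv_mul_le_iff₀ (by positivity)]
  have hfin := hcover.trans (add_le_add (add_le_add (add_le_add hlow hC) hM) hT)
  refine hfin.trans (le_of_eq ?_)
  ring

/-- The case of large `b`, normalised. -/
lemma big_b (δ C4 : ℝ) (hδ : 0 < δ) (hδ8 : δ ≤ 1 / 8) (hC4 : 0 < C4) (N b A : ℕ) [NeZero A]
    (hN : 1 ≤ N) (hb : (N : ℝ) ^ (5 / 4 : ℝ) < b)
    (a : ℕ → ℕ → ℂ) (ha : nsq (Icc (b + 1) (b + N)) N a ≤ 1)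
    (hl2 : (A : ℝ)⁻¹ ^ 2 * ∑ z : ZMod A, ∑ y : ZMod A,
      ‖F A (Icc (b + 1) (b + N)) N a z y‖ ^ 2 = nsq (Icc (b + 1) (b + N)) N a)
    (h4 : (A : ℝ)⁻¹ ^ 2 * ∑ z : ZMod A, ∑ y : ZMod A,
      ‖F A (Icc (b + 1) (b + N)) N a z y‖ ^ 4 ≤
      C4 * (N : ℝ) ^ (1 / 16 : ℝ) * (1 + (N : ℝ) ^ 2 / b) * nsq (Icc (b + 1) (b + N)) N a ^ 2) :
    (A : ℝ)⁻¹ ^ 2 * ∑ z : ZMod A, ∑ y : ZMod A,
      ‖F A (Icc (b + 1) (b + N)) N a z y‖ ^ (4 - δ) ≤ (2 * C4 + 1) * (N : ℝ) ^ (1 - δ) := by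
  have hx1 : (1 : ℝ) ≤ N := by exact_mod_cast hN
  have hx0 : (0 : ℝ) < N := by linarith
  have hpow : ∀ r s : ℝ, r ≤ s → (N : ℝ) ^ r ≤ (N : ℝ) ^ s := fun r s h =>
    Real.rpow_le_rpow_of_exponent_le hx1 h
  have hns0 : 0 ≤ nsq (Icc (b + 1) (b + N)) N a :=
    sum_nonneg fun _ _ => sum_nonneg fun _ _ => sq_nonneg _
  have hpt : ∀ z y : ZMod A, ‖F A (Icc (b + 1) (b + N)) N a z y‖ ^ (4 - δ) ≤
      ‖F A (Icc (b + 1) (b + N)) N a z y‖ ^ 4 +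
        (N : ℝ) ^ (3 / 4 : ℝ) * ‖F A (Icc (b + 1) (b + N)) N a z y‖ ^ 2 := by
    intro z y
    set t := ‖F A (Icc (b + 1) (b + N)) N a z y‖ with ht
    have ht0 : 0 ≤ t := norm_nonneg _
    rcases le_or_gt ((N : ℝ) ^ (3 / 8 : ℝ)) t with h | h
    · have h1 : 1 ≤ t := le_trans (Real.one_le_rpow hx1 (by norm_num)) h
      have h2 : t ^ (4 - δ) ≤ t ^ (4 : ℝ) := Real.rpow_le_rpow_of_exponent_le h1 (by linarith)
      have h3 : t ^ (4 : ℝ) = t ^ 4 := by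
        rw [← Real.rpow_natCast]
        norm_num
      rw [h3] at h2
      have h4 : 0 ≤ (N : ℝ) ^ (3 / 4 : ℝ) * t ^ 2 := by positivity
      linarith
    · have h2 : t ^ (4 - δ) = t ^ (2 - δ) * t ^ 2 := by
        have : (4 - δ) = (2 - δ) + 2 := by ring
        rw [this, Real.rpow_add_of_nonneg ht0 (by linarith) (by norm_num), Real.rpow_two]
      have h3 : t ^ (2 - δ) ≤ (N : ℝ) ^ (3 / 4 : ℝ) := by
        calc t ^ (2 - δ) ≤ ((N : ℝ) ^ (3 / 8 : ℝ)) ^ (2 - δ) :=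
              Real.rpow_le_rpow ht0 h.le (by linarith)
          _ = (N : ℝ) ^ ((3 / 8 : ℝ) * (2 - δ)) := by rw [← Real.rpow_mul hx0.le]
          _ ≤ _ := hpow _ _ (by linarith)
      rw [h2]
      have h5 := mul_le_mul_of_nonneg_right h3 (sq_nonneg t)
      have h6 : 0 ≤ t ^ 4 := by positivity
      linarith
  have hsum : ∑ z : ZMod A, ∑ y : ZMod A, ‖F A (Icc (b + 1) (b + N)) N a z y‖ ^ (4 - δ) ≤
      ∑ z : ZMod A, ∑ y : ZMod A, ‖F A (Icc (b + 1) (b + N)) N a z y‖ ^ 4 +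
        (N : ℝ) ^ (3 / 4 : ℝ) * ∑ z : ZMod A, ∑ y : ZMod A,
          ‖F A (Icc (b + 1) (b + N)) N a z y‖ ^ 2 := by
    rw [mul_sum, ← sum_add_distrib]
    refine sum_le_sum fun z _ => ?_
    rw [mul_sum, ← sum_add_distrib]
    exact sum_le_sum fun y _ => hpt z y
  have hA2 : (0 : ℝ) ≤ (A : ℝ)⁻¹ ^ 2 := by positivity
  have hbpos : (0 : ℝ) < b := lt_trans (by positivity) hb
  have hratio : (N : ℝ) ^ 2 / b ≤ (N : ℝ) ^ (3 / 4 : ℝ) := by
    rw [div_le_iff₀ hbpos]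
    have h1 : (N : ℝ) ^ 2 = (N : ℝ) ^ (3 / 4 : ℝ) * (N : ℝ) ^ (5 / 4 : ℝ) := by
      rw [← Real.rpow_add hx0, ← Real.rpow_natCast]
      norm_num
    rw [h1]
    exact mul_le_mul_of_nonneg_left hb.le (by positivity)
  have h34 : (1 : ℝ) ≤ (N : ℝ) ^ (3 / 4 : ℝ) := Real.one_le_rpow hx1 (by norm_num)
  calc (A : ℝ)⁻¹ ^ 2 * ∑ z : ZMod A, ∑ y : ZMod A,
      ‖F A (Icc (b + 1) (b + N)) N a z y‖ ^ (4 - δ) ≤
      (A : ℝ)⁻¹ ^ 2 * (∑ z : ZMod A, ∑ y : ZMod A, ‖F A (Icc (b + 1) (b + N)) N a z y‖ ^ 4 +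
        (N : ℝ) ^ (3 / 4 : ℝ) * ∑ z : ZMod A, ∑ y : ZMod A,
          ‖F A (Icc (b + 1) (b + N)) N a z y‖ ^ 2) := mul_le_mul_of_nonneg_left hsum hA2
    _ = (A : ℝ)⁻¹ ^ 2 * ∑ z : ZMod A, ∑ y : ZMod A, ‖F A (Icc (b + 1) (b + N)) N a z y‖ ^ 4 +
        (N : ℝ) ^ (3 / 4 : ℝ) * ((A : ℝ)⁻¹ ^ 2 * ∑ z : ZMod A, ∑ y : ZMod A,
          ‖F A (Icc (b + 1) (b + N)) N a z y‖ ^ 2) := by ring
    _ ≤ C4 * (N : ℝ) ^ (1 / 16 : ℝ) * (2 * (N : ℝ) ^ (3 / 4 : ℝ)) * 1 +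
        (N : ℝ) ^ (3 / 4 : ℝ) * 1 := by
        apply add_le_add
        · refine h4.trans ?_
          apply mul_le_mul
          · apply mul_le_mul_of_nonneg_left _ (by positivity)
            linarith
          · exact pow_le_one₀ hns0 ha
          · positivity
          · positivity
        · rw [hl2]
          exact mul_le_mul_of_nonneg_left ha (by positivity)
    _ = 2 * C4 * (N : ℝ) ^ (13 / 16 : ℝ) + (N : ℝ) ^ (3 / 4 : ℝ) := by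
        have : (N : ℝ) ^ (13 / 16 : ℝ) = (N : ℝ) ^ (1 / 16 : ℝ) * (N : ℝ) ^ (3 / 4 : ℝ) := by
          rw [← Real.rpow_add hx0]
          norm_num
        rw [this]
        ring
    _ ≤ 2 * C4 * (N : ℝ) ^ (1 - δ) + (N : ℝ) ^ (1 - δ) := by
        apply add_le_add
        · exact mul_le_mul_of_nonneg_left (hpow _ _ (by linarith)) (by positivity)
        · exact hpow _ _ (by linarith)
    _ = _ := by ring

/-- Homogeneity. -/
lemma homog (p C : ℝ) (hp : 0 < p) (N b A : ℕ) [NeZero A] (X : ℝ)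
    (h : ∀ a : ℕ → ℕ → ℂ, nsq (Icc (b + 1) (b + N)) N a ≤ 1 →
      (A : ℝ)⁻¹ ^ 2 * ∑ z : ZMod A, ∑ y : ZMod A,
        ‖F A (Icc (b + 1) (b + N)) N a z y‖ ^ p ≤ C * X) (a : ℕ → ℕ → ℂ) :
    (A : ℝ)⁻¹ ^ 2 * ∑ z : ZMod A, ∑ y : ZMod A,
      ‖F A (Icc (b + 1) (b + N)) N a z y‖ ^ p ≤
      C * X * (nsq (Icc (b + 1) (b + N)) N a) ^ (p / 2) := by
  set ν := nsq (Icc (b + 1) (b + N)) N a with hν
  have hν0 : 0 ≤ ν := sum_nonneg fun _ _ => sum_nonneg fun _ _ => sq_nonneg _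
  rcases hν0.eq_or_lt with h0 | hpos
  · have hz : ∀ n ∈ Icc (b + 1) (b + N), ∀ m ∈ range N, a n m = 0 := by
      intro n hn m hm
      have h1 := (sum_eq_zero_iff_of_nonneg (fun n _ => sum_nonneg fun m _ =>
        sq_nonneg ‖a n m‖)).mp h0.symm n hn
      have h2 := (sum_eq_zero_iff_of_nonneg (fun m _ => sq_nonneg ‖a n m‖)).mp h1 m hm
      simpa using h2
    have hF : ∀ z y : ZMod A, F A (Icc (b + 1) (b + N)) N a z y = 0 := by
      intro z y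
      unfold F
      refine sum_eq_zero fun n hn => sum_eq_zero fun m hm => ?_
      rw [hz n hn m hm, zero_mul]
    have h3 : ∑ z : ZMod A, ∑ y : ZMod A, ‖F A (Icc (b + 1) (b + N)) N a z y‖ ^ p = 0 := by
      refine sum_eq_zero fun z _ => sum_eq_zero fun y _ => ?_
      rw [hF, norm_zero, Real.zero_rpow hp.ne']
    rw [h3, ← h0, Real.zero_rpow (by positivity)]
    simp
  · set r : ℝ := Real.sqrt ν with hr
    have hr0 : 0 < r := Real.sqrt_pos.mpr hpos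
    have hr2 : r ^ 2 = ν := Real.sq_sqrt hν0
    have hFs : ∀ z y : ZMod A, F A (Icc (b + 1) (b + N)) N (fun n m => ((r⁻¹ : ℝ) : ℂ) * a n m)
        z y = ((r⁻¹ : ℝ) : ℂ) * F A (Icc (b + 1) (b + N)) N a z y := by
      intro z y
      unfold F
      rw [mul_sum]
      refine sum_congr rfl fun n _ => ?_
      rw [mul_sum]
      exact sum_congr rfl fun m _ => by ring
    have hns : nsq (Icc (b + 1) (b + N)) N (fun n m => ((r⁻¹ : ℝ) : ℂ) * a n m) ≤ 1 := by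
      have h1 : nsq (Icc (b + 1) (b + N)) N (fun n m => ((r⁻¹ : ℝ) : ℂ) * a n m) =
          (r⁻¹) ^ 2 * ν := by
        rw [hν]
        unfold nsq
        rw [mul_sum]
        refine sum_congr rfl fun n _ => ?_
        rw [mul_sum]
        refine sum_congr rfl fun m _ => ?_
        rw [norm_mul, mul_pow, Complex.norm_real, Real.norm_eq_abs, sq_abs]
      rw [h1, ← hr2, ← mul_pow, inv_mul_cancel₀ hr0.ne', one_pow]
    have h1 := h _ hns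
    have h2 : ∑ z : ZMod A, ∑ y : ZMod A, ‖F A (Icc (b + 1) (b + N)) N
        (fun n m => ((r⁻¹ : ℝ) : ℂ) * a n m) z y‖ ^ p =
        (r⁻¹) ^ p * ∑ z : ZMod A, ∑ y : ZMod A, ‖F A (Icc (b + 1) (b + N)) N a z y‖ ^ p := by
      rw [mul_sum]
      refine sum_congr rfl fun z _ => ?_
      rw [mul_sum]
      refine sum_congr rfl fun y _ => ?_
      rw [hFs, norm_mul, Complex.norm_real, Real.norm_eq_abs, abs_of_pos (inv_pos.mpr hr0),
        Real.mul_rpow (inv_pos.mpr hr0).le (norm_nonneg _)]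
    rw [h2] at h1
    have hrp : r ^ p = ν ^ (p / 2) := by
      rw [← hr2, ← Real.rpow_natCast, ← Real.rpow_mul hr0.le]
      congr 1
      push_cast
      ring
    have hrp0 : 0 < r ^ p := Real.rpow_pos_of_pos hr0 p
    rw [Real.inv_rpow hr0.le] at h1
    have h3 := mul_le_mul_of_nonneg_left h1 hrp0.le
    rw [← hrp]
    calc (A : ℝ)⁻¹ ^ 2 * ∑ z : ZMod A, ∑ y : ZMod A,
          ‖F A (Icc (b + 1) (b + N)) N a z y‖ ^ p =
        r ^ p * ((A : ℝ)⁻¹ ^ 2 * ((r ^ p)⁻¹ * ∑ z : ZMod A, ∑ y : ZMod A,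
          ‖F A (Icc (b + 1) (b + N)) N a z y‖ ^ p)) := by
          field_simp
      _ ≤ r ^ p * (C * X) := h3
      _ = C * X * r ^ p := by ring

end Levels

/-- All levels. -/
theorem fin_main_of
    (hl2zy : ∀ (A N : ℕ) [NeZero A] (_ : N ≤ A) (I : Finset ℕ) (_ : ∀ n ∈ I, n ^ 2 < A)
      (a : ℕ → ℕ → ℂ), (A : ℝ)⁻¹ ^ 2 * ∑ z : ZMod A, ∑ y : ZMod A, ‖F A I N a z y‖ ^ 2 = nsq I N a)
    (hL4big : ∀ ε : ℝ, 0 < ε → ∃ C : ℝ, 0 < C ∧ ∀ (N b A : ℕ) [NeZero A], 1 ≤ N → 1 ≤ b →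
      16 * (b + N) ^ 2 < A → ∀ a : ℕ → ℕ → ℂ,
      (A : ℝ)⁻¹ ^ 2 * ∑ z : ZMod A, ∑ y : ZMod A, ‖F A (Icc (b + 1) (b + N)) N a z y‖ ^ 4
        ≤ C * (N : ℝ) ^ ε * (1 + (N : ℝ) ^ 2 / b) * nsq (Icc (b + 1) (b + N)) N a ^ 2)
    (hcrit : ∃ δ : ℝ, 0 < δ ∧ ∃ C : ℝ, 0 < C ∧ ∀ (N b A : ℕ) [NeZero A], 1 ≤ N →
      (b : ℝ) ≤ (N : ℝ) ^ (5 / 4 : ℝ) → Good ((N + 1) ^ 60) A → ∀ a : ℕ → ℕ → ℂ,
      nsq (Icc (b + 1) (b + N)) N a ≤ 1 → ∀ lam : ℝ, (N : ℝ) ^ (1 / 2 - δ) ≤ lam →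
      lam ≤ (N : ℝ) ^ (1 / 2 + δ) →
      ((lev A (Icc (b + 1) (b + N)) N a lam).card : ℝ) ≤ C * (N : ℝ) ^ (-1 - 10 * δ) * A ^ 2)
    (hmid : ∀ ε : ℝ, 0 < ε → ∃ C : ℝ, 0 < C ∧ ∀ (N b A : ℕ) [NeZero A], 1 ≤ N →
      (b : ℝ) ≤ (N : ℝ) ^ 2 → Good ((N + 1) ^ 60) A → ∀ a : ℕ → ℕ → ℂ,
      nsq (Icc (b + 1) (b + N)) N a ≤ 1 → ∀ lam : ℝ, (N : ℝ) ^ (1 / 2 + ε) ≤ lam →
      ((lev A (Icc (b + 1) (b + N)) N a lam).card : ℝ) ≤
        C * (N : ℝ) ^ ε * lam ^ (-3 : ℝ) * A ^ 2)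
    (htop : ∃ θ : ℝ, 0 < θ ∧ θ < 1 / 2 ∧ ∃ δ : ℝ, 0 < δ ∧ ∃ C : ℝ, 0 < C ∧
      ∀ (N b A : ℕ) [NeZero A], 1 ≤ N → Good ((N + b + 1) ^ 60) A →
      ∀ a : ℕ → ℕ → ℂ, nsq (Icc (b + 1) (b + N)) N a ≤ 1 → ∀ lam : ℝ, (N : ℝ) ^ (1 - θ) ≤ lam →
      ((lev A (Icc (b + 1) (b + N)) N a lam).card : ℝ) ≤
        C * (N : ℝ) ^ (-3 : ℝ) * (N / lam) ^ (4 - δ) * A ^ 2) :
    ∃ δ : ℝ, 0 < δ ∧ δ < 1 ∧ ∃ C : ℝ, 0 < C ∧
      ∀ (N b A : ℕ) [NeZero A], 1 ≤ N → Good ((N + b + 1) ^ 60) A → ∀ a : ℕ → ℕ → ℂ,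
      (A : ℝ)⁻¹ ^ 2 * ∑ z : ZMod A, ∑ y : ZMod A,
        ‖F A (Icc (b + 1) (b + N)) N a z y‖ ^ (4 - δ) ≤
        C * (N : ℝ) ^ (1 - δ) * (nsq (Icc (b + 1) (b + N)) N a) ^ ((4 - δ) / 2) := by
  obtain ⟨θ, hθ0, hθ1, δt, hδt, Ct, hCt, htop⟩ := htop
  obtain ⟨δc, hδc, Cc, hCc, hcrit⟩ := hcrit
  obtain ⟨C4, hC4, hL4⟩ := hL4big (1 / 16) (by norm_num)
  set δ1 : ℝ := min δc (min (1 / 8) (θ / 4)) with hδ1
  have hδ1pos : 0 < δ1 := lt_min hδc (lt_min (by norm_num) (by positivity))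
  have hδ1c : δ1 ≤ δc := min_le_left _ _
  have hδ18 : δ1 ≤ 1 / 8 := (min_le_right _ _).trans (min_le_left _ _)
  have hδ1θ : δ1 ≤ θ / 4 := (min_le_right _ _).trans (min_le_right _ _)
  obtain ⟨Cm, hCm, hmid⟩ := hmid δ1 hδ1pos
  set δ2 : ℝ := min δt 1 with hδ2
  have hδ2pos : 0 < δ2 := lt_min hδt one_pos
  have hδ21 : δ2 ≤ 1 := min_le_right _ _
  have hδ2t : δ2 ≤ δt := min_le_left _ _
  set δ : ℝ := min δ1 (δ2 / 2) with hδ
  have hδpos : 0 < δ := lt_min hδ1pos (by positivity)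
  have hδδ1 : δ ≤ δ1 := min_le_left _ _
  have hδδ2 : δ < δ2 := lt_of_le_of_lt (min_le_right _ _) (by linarith)
  set K : ℝ := 1 + 2 ^ (1 : ℝ) / (1 - 2 ^ (-((4 - δ) - 1))) * Cc +
        2 ^ (3 : ℝ) / (1 - 2 ^ (-((4 - δ) - 3))) * Cm +
        2 ^ (4 - δ2) / (1 - 2 ^ (-((4 - δ) - (4 - δ2)))) * Ct with hK
  have hone : ∀ q : ℝ, q < 4 - δ → 0 < 2 ^ q / (1 - (2 : ℝ) ^ (-((4 - δ) - q))) := by
    intro q hq
    have : (2 : ℝ) ^ (-((4 - δ) - q)) < 1 :=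
      Real.rpow_lt_one_of_one_lt_of_neg (by norm_num) (by linarith)
    exact div_pos (Real.rpow_pos_of_pos (by norm_num) _) (by linarith)
  have hKpos : 0 < K := by
    have h1 := mul_pos (hone 1 (by linarith)) hCc
    have h2 := mul_pos (hone 3 (by linarith)) hCm
    have h3 := mul_pos (hone (4 - δ2) (by linarith)) hCt
    rw [hK]
    linarith
  refine ⟨δ, hδpos, by linarith, K + (2 * C4 + 1), by linarith, ?_⟩
  intro N b A _ hN hG a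
  have hx1 : (1 : ℝ) ≤ N := by exact_mod_cast hN
  have hx0 : (0 : ℝ) < N := by linarith
  have hA16 := Levels.Good_lt A N b hN hG
  have hNA : N ≤ A := by
    have h1 : b + N ≤ (b + N) ^ 2 := Nat.le_self_pow (by norm_num) _
    omega
  have hI : ∀ n ∈ Icc (b + 1) (b + N), n ^ 2 < A := by
    intro n hn
    have h1 : n ≤ b + N := (mem_Icc.mp hn).2
    have h2 : n ^ 2 ≤ (b + N) ^ 2 := Nat.pow_le_pow_left h1 2
    omega
  have hG1 : Good ((N + 1) ^ 60) A :=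
    Levels.Good_mono (Nat.pow_le_pow_left (by omega) 60) hG
  apply Levels.homog (4 - δ) (K + (2 * C4 + 1)) (by linarith) N b A ((N : ℝ) ^ (1 - δ))
  intro a ha
  have hl2 := hl2zy A N hNA _ hI a
  rcases le_or_gt (b : ℝ) ((N : ℝ) ^ (5 / 4 : ℝ)) with hb | hb
  · have hbsq : (b : ℝ) ≤ (N : ℝ) ^ 2 := by
      refine hb.trans ?_
      rw [← Real.rpow_two]
      exact Real.rpow_le_rpow_of_exponent_le hx1 (by norm_num)
    have h1 := Levels.small_b δ δ1 δ2 θ Cc Cm Ct hδpos hδ1pos hδδ1 hδ18 hδ1θ hδδ2 hδ21 hCc hCm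
      hCt N b A hN a ha hl2 (by
        intro lam h2 h3
        have h4 := hcrit N b A hN hb hG1 a ha lam
          ((Real.rpow_le_rpow_of_exponent_le hx1 (by linarith)).trans h2)
          (h3.trans (Real.rpow_le_rpow_of_exponent_le hx1 (by linarith)))
        refine h4.trans ?_
        apply mul_le_mul_of_nonneg_right _ (by positivity)
        apply mul_le_mul_of_nonneg_left _ hCc.le
        exact Real.rpow_le_rpow_of_exponent_le hx1 (by linarith))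
      (fun lam h2 => hmid N b A hN hbsq hG1 a ha lam h2)
      (by
        intro lam h2 h3
        have h4 := htop N b A hN hG a ha lam h2
        refine h4.trans ?_
        have hlam : 0 < lam := lt_of_lt_of_le (by positivity) h2
        apply mul_le_mul_of_nonneg_right _ (by positivity)
        apply mul_le_mul_of_nonneg_left _ (by positivity)
        exact Real.rpow_le_rpow_of_exponent_le ((one_le_div hlam).mpr h3) (by linarith))
    refine h1.trans ?_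
    apply mul_le_mul_of_nonneg_right _ (by positivity)
    rw [hK]
    linarith
  · have hb1 : 1 ≤ b := by
      by_contra h
      have : b = 0 := by omega
      rw [this] at hb
      have h2 : (0 : ℝ) < (N : ℝ) ^ (5 / 4 : ℝ) := by positivity
      simp at hb
      linarith
    have h1 := Levels.big_b δ C4 hδpos (by linarith) hC4 N b A hN hb a ha hl2
      (hL4 N b A hN hb1 hA16 a)
    refine h1.trans ?_
    apply mul_le_mul_of_nonneg_right _ (by positivity)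
    linarith

end Stz
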